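import Mathlib

set_option autoImplicit false

/-!
Let `Γ` be a graph on `n` vertices whose RA matrix has exactly `k` nontrivial elementary divisors.
There is a finite nonabelian group `G` with `Comm_b(G,Γ) ≅ [G,G]^{n-k}` such that `Γ` is `G`-RA if
and only if no two vertices of `Γ` have the same closed neighbourhood.
-/

open scoped commutatorElement

namespace Pool.Agent.Results.MP_8f3806_al.MaximalGap

/-! ### Definitions -/

variable {n : ℕ}

/-- The closed neighbourhood `N[v]`. -/
def N (Γ : SimpleGraph (Fin n)) (v : Fin n) : Set (Fin n) := {u | u = v ∨ Γ.Adj v u}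

open Classical in
/-- The element `g^S` of `G^V` for a set `S` of vertices: `g` on `S` and `1` elsewhere. -/
noncomputable def pw {G : Type} [Group G] (g : G) (S : Set (Fin n)) : Fin n → G :=
  fun u => if u ∈ S then g else 1

/-- `G^Γ`, generated by all `g^v = g^{N[v]}`. -/
def graphPower (G : Type) [Group G] (Γ : SimpleGraph (Fin n)) : Subgroup (Fin n → G) :=
  Subgroup.closure {f | ∃ (g : G) (v : Fin n), f = pw g (N Γ v)}

/-- The direct power `[G,G]^n` as a subgroup of `G^V`. -/
def derivedPower (G : Type) [Group G] (n : ℕ) : Subgroup (Fin n → G) :=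
  Subgroup.pi Set.univ fun _ => commutator G

/-- `Γ` is `G`-RA. -/
def IsRA (G : Type) [Group G] (Γ : SimpleGraph (Fin n)) : Prop :=
  derivedPower G n ≤ graphPower G Γ

/-- `Comm_b(G,Γ)`. -/
def commB (G : Type) [Group G] (Γ : SimpleGraph (Fin n)) : Subgroup (Fin n → G) :=
  Subgroup.closure {f | ∃ (g h : G) (v w : Fin n), f = ⁅pw g (N Γ v), pw h (N Γ w)⁆}

open Classical in
/-- The RA matrix: the row of `(u, v)` is the indicator of `N[u] ∩ N[v]`. -/
noncomputable def RA (Γ : SimpleGraph (Fin n)) : Matrix (Fin n × Fin n) (Fin n) ℤ :=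
  Matrix.of fun r w => if w ∈ N Γ r.1 ∩ N Γ r.2 then 1 else 0

/-- `d` is the sequence of elementary divisors of the integer matrix `C` with `n` columns and rows
indexed by `Fin n × Fin n`: the entries are nonnegative, each one divides the next one, and
multiplying `C` by invertible integer matrices on both sides one can reach the matrix with entry
`d j` at the position `((j,j), j)` and all other entries `0`. -/
def IsElementaryDivisors (C : Matrix (Fin n × Fin n) (Fin n) ℤ) (d : Fin n → ℤ) : Prop :=
  (∀ i, 0 ≤ d i) ∧ (∀ i j, i ≤ j → d i ∣ d j) ∧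
    ∃ (P : Matrix (Fin n × Fin n) (Fin n × Fin n) ℤ) (Q : Matrix (Fin n) (Fin n) ℤ),
      IsUnit P ∧ IsUnit Q ∧ P * C * Q = Matrix.of fun r j => if r = (j, j) then d j else 0

/-! ### Commutators of powers -/

theorem mem_N_comm (Γ : SimpleGraph (Fin n)) (u v : Fin n) : u ∈ N Γ v ↔ v ∈ N Γ u := by
  unfold N
  simp only [Set.mem_ofPred_eq]
  constructor
  · rintro (h | h)
    · exact Or.inl h.symm
    · exact Or.inr h.symm
  · rintro (h | h)
    · exact Or.inl h.symm
    · exact Or.inr h.symm

theorem comm_pw {G : Type} [Group G] (g h : G) (S T : Set (Fin n)) :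
    ⁅pw g S, pw h T⁆ = pw ⁅g, h⁆ (S ∩ T) := by
  funext u
  rw [commutatorElement_def, commutatorElement_def]
  simp only [Pi.mul_apply, Pi.inv_apply, pw, Set.mem_inter_iff]
  by_cases h1 : u ∈ S <;> by_cases h2 : u ∈ T <;> simp [h1, h2]

theorem mul_pw {G : Type} [Group G] (g h : G) (S : Set (Fin n)) :
    pw (g * h) S = pw g S * pw h S := by
  funext u
  simp only [Pi.mul_apply, pw]
  split_ifs <;> simp

theorem pw_diff {G : Type} [Group G] (g : G) (S T : Set (Fin n)) :
    pw g (S \ T) = pw g S * (pw g (S ∩ T))⁻¹ := by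
  funext u
  simp only [Pi.mul_apply, Pi.inv_apply, pw, Set.mem_inter_iff, Set.mem_sdiff]
  by_cases h1 : u ∈ S <;> by_cases h2 : u ∈ T <;> simp [h1, h2]

/-! ### Twins -/

/-- If two vertices have the same closed neighbourhood then the graph is not `G`-RA for any
nonabelian group. -/
theorem not_RA_of_twins (Γ : SimpleGraph (Fin n)) (u v : Fin n) (huv : u ≠ v)
    (hN : N Γ u = N Γ v) (G : Type) [Group G] (hG : ∃ x y : G, x * y ≠ y * x) : ¬ IsRA G Γ := by
  intro hRA
  obtain ⟨x, y, hxy⟩ := hG
  have hc : ⁅x, y⁆ ≠ 1 := by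
    rw [Ne, commutatorElement_eq_one_iff_mul_comm]
    exact hxy
  have hmem : (Pi.mulSingle u ⁅x, y⁆ : Fin n → G) ∈ derivedPower G n := by
    rw [derivedPower, Subgroup.mem_pi]
    intro w _
    by_cases hw : w = u
    · subst hw
      rw [Pi.mulSingle_eq_same]
      exact Subgroup.commutator_mem_commutator (Subgroup.mem_top _) (Subgroup.mem_top _)
    · rw [Pi.mulSingle_eq_of_ne hw]
      exact one_mem _
  have hle : graphPower G Γ ≤
      ((Pi.evalMonoidHom (fun _ : Fin n => G) u).eqLocus (Pi.evalMonoidHom (fun _ => G) v)) := by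
    rw [graphPower, Subgroup.closure_le]
    rintro _ ⟨g, w, rfl⟩
    change pw g (N Γ w) u = pw g (N Γ w) v
    have : u ∈ N Γ w ↔ v ∈ N Γ w := by
      rw [mem_N_comm Γ u w, mem_N_comm Γ v w, hN]
    by_cases h : u ∈ N Γ w
    · have h' := this.1 h
      simp [pw, h, h']
    · have h' : v ∉ N Γ w := fun hv => h (this.2 hv)
      simp [pw, h, h']
  have h1 := hle (hRA hmem)
  change (Pi.mulSingle u ⁅x, y⁆ : Fin n → G) u = (Pi.mulSingle u ⁅x, y⁆ : Fin n → G) v at h1
  rw [Pi.mulSingle_eq_same, Pi.mulSingle_eq_of_ne huv.symm] at h1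
  exact hc h1

/-! ### The affine group of a finite field -/

section

variable (F : Type) [Field F]

/-- Multiplication by a unit. -/
def mulByUnit (b : Fˣ) : MulAut (Multiplicative F) where
  toFun a := Multiplicative.ofAdd (b * Multiplicative.toAdd a)
  invFun a := Multiplicative.ofAdd ((b⁻¹ : Fˣ) * Multiplicative.toAdd a)
  left_inv a := by simp
  right_inv a := by simp
  map_mul' a a' := by
    rw [toAdd_mul, mul_add, ofAdd_add]

/-- The action of `Fˣ` on `F`. -/
def φ : Fˣ →* MulAut (Multiplicative F) where
  toFun := mulByUnit F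
  map_one' := by
    ext a
    simp [mulByUnit]
  map_mul' b b' := by
    ext a
    simp [mulByUnit, mul_assoc]

/-- The affine group of the line over `F`. -/
abbrev Aff : Type := Multiplicative F ⋊[φ F] Fˣ

/-- The translation by `a`. -/
def tr (a : F) : Aff F := SemidirectProduct.inl (Multiplicative.ofAdd a)

variable {F}

theorem tr_add (a b : F) : tr F (a + b) = tr F a * tr F b := by
  unfold tr
  rw [ofAdd_add, map_mul]

theorem tr_zero : tr F 0 = 1 := by
  unfold tr
  rw [ofAdd_zero, map_one]

theorem tr_injective : Function.Injective (tr F) := by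
  intro a b h
  exact Multiplicative.ofAdd.injective (SemidirectProduct.inl_injective h)

theorem comm_unit_tr (b : Fˣ) (a : F) :
    ⁅(SemidirectProduct.inr b : Aff F), tr F a⁆ = tr F (((b : F) - 1) * a) := by
  have h1 : (SemidirectProduct.inr b : Aff F) * tr F a * (SemidirectProduct.inr b)⁻¹ =
      tr F (b * a) := by
    unfold tr
    rw [← map_inv, ← SemidirectProduct.inl_aut]
    rfl
  rw [commutatorElement_def, h1]
  have h2 : tr F (b * a) = tr F (((b : F) - 1) * a) * tr F a := by
    rw [← tr_add]
    congr 1
    ring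
  rw [h2, mul_inv_cancel_right]

theorem eq_tr_of_right {g : Aff F} (h : g.right = 1) : g = tr F (Multiplicative.toAdd g.left) := by
  apply SemidirectProduct.ext
  · rfl
  · exact h

theorem exists_unit (hF : ∃ b : F, b ≠ 0 ∧ b ≠ 1) (c : F) :
    ∃ g h : Aff F, ⁅g, h⁆ = tr F c ∧ ∃ a : F, h = tr F a := by
  obtain ⟨b, hb0, hb1⟩ := hF
  refine ⟨SemidirectProduct.inr (Units.mk0 b hb0), tr F ((b - 1)⁻¹ * c), ?_, _, rfl⟩
  rw [comm_unit_tr, Units.val_mk0, mul_inv_cancel_left₀ (sub_ne_zero.mpr hb1)]

theorem commutator_right (g h : Aff F) : ⁅g, h⁆.right = 1 := by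
  have := map_commutatorElement (SemidirectProduct.rightHom : Aff F →* Fˣ) g h
  change ⁅g, h⁆.right = ⁅g.right, h.right⁆ at this
  rw [this, commutatorElement_eq_one_iff_mul_comm, mul_comm]

theorem mem_commutator_iff (hF : ∃ b : F, b ≠ 0 ∧ b ≠ 1) (g : Aff F) :
    g ∈ commutator (Aff F) ↔ g.right = 1 := by
  constructor
  · intro hg
    have hle : commutator (Aff F) ≤ (SemidirectProduct.rightHom : Aff F →* Fˣ).ker := by
      rw [commutator_eq_closure, Subgroup.closure_le]
      rintro _ ⟨x, y, rfl⟩
      exact commutator_right x y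
    exact hle hg
  · intro hg
    rw [eq_tr_of_right hg]
    obtain ⟨x, y, hxy, -⟩ := exists_unit hF (Multiplicative.toAdd g.left)
    rw [← hxy]
    exact Subgroup.commutator_mem_commutator (Subgroup.mem_top _) (Subgroup.mem_top _)

/-- `F ≅ [G,G]`. -/
noncomputable def equivCommutator (hF : ∃ b : F, b ≠ 0 ∧ b ≠ 1) :
    Multiplicative F ≃* commutator (Aff F) :=
  MulEquiv.ofBijective
    ({ toFun := fun a => ⟨tr F a.toAdd, (mem_commutator_iff hF _).2 rfl⟩
       map_one' := Subtype.ext tr_zero
       map_mul' := fun a b => Subtype.ext (tr_add _ _) } : Multiplicative F →* commutator (Aff F))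
    ⟨fun a b h => Multiplicative.toAdd.injective (tr_injective (congrArg Subtype.val h)), fun g =>
      ⟨Multiplicative.ofAdd (Multiplicative.toAdd g.1.left),
        Subtype.ext (eq_tr_of_right ((mem_commutator_iff hF _).1 g.2)).symm⟩⟩

/-! ### The affine group makes twin-free graphs RA -/

theorem RA_of_no_twins (hF : ∃ b : F, b ≠ 0 ∧ b ≠ 1) (Γ : SimpleGraph (Fin n))
    (hΓ : ∀ u v, N Γ u = N Γ v → u = v) : IsRA (Aff F) Γ := by
  classical
  -- the family of good sets
  let Good : Set (Fin n) → Prop := fun S => ∀ a : F, pw (tr F a) S ∈ graphPower (Aff F) Γ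
  have g1 : ∀ v, Good (N Γ v) := fun v a => Subgroup.subset_closure ⟨_, v, rfl⟩
  have g2 : ∀ S v, Good S → Good (S ∩ N Γ v) := by
    intro S v hS a
    obtain ⟨x, y, hxy, c, rfl⟩ := exists_unit hF a
    have h1 : ⁅pw x (N Γ v), pw (tr F c) S⁆ ∈ graphPower (Aff F) Γ := by
      rw [commutatorElement_def]
      have hx : pw x (N Γ v) ∈ graphPower (Aff F) Γ := Subgroup.subset_closure ⟨_, v, rfl⟩
      exact mul_mem (mul_mem (mul_mem hx (hS c)) (inv_mem hx)) (inv_mem (hS c))
    rw [comm_pw, hxy, Set.inter_comm] at h1
    exact h1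
  have g3 : ∀ S v, Good S → Good (S \ N Γ v) := by
    intro S v hS a
    rw [pw_diff]
    exact mul_mem (hS a) (inv_mem (g2 S v hS a))
  have g4 : ∀ v, Good {v} := by
    intro v
    -- intersect over all `w`
    have key : ∀ T : Finset (Fin n), Good {u | u ∈ N Γ v ∧ ∀ w ∈ T, (u ∈ N Γ w ↔ v ∈ N Γ w)} := by
      intro T
      induction T using Finset.induction_on with
      | empty => simpa using g1 v
      | insert w T _ ih =>
        by_cases hw : v ∈ N Γ w
        · have := g2 _ w ih
          convert this using 1
          ext u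
          simp only [Set.mem_ofPred_eq, Finset.mem_insert, forall_eq_or_imp, Set.mem_inter_iff, hw,
            iff_true]
          tauto
        · have := g3 _ w ih
          convert this using 1
          ext u
          simp only [Set.mem_ofPred_eq, Finset.mem_insert, forall_eq_or_imp, Set.mem_sdiff, hw,
            iff_false]
          tauto
    have h1 := key Finset.univ
    convert h1 using 1
    ext u
    simp only [Set.mem_singleton_iff, Set.mem_ofPred_eq, Finset.mem_univ, true_implies]
    constructor
    · rintro rfl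
      exact ⟨Or.inl rfl, fun _ => Iff.rfl⟩
    · rintro ⟨-, h⟩
      apply hΓ
      ext w
      rw [mem_N_comm Γ w u, mem_N_comm Γ w v]
      exact h w
  -- conclusion
  intro f hf
  rw [derivedPower, Subgroup.mem_pi] at hf
  have hprod : ∀ T : Finset (Fin n),
      (fun u => if u ∈ T then f u else 1) ∈ graphPower (Aff F) Γ := by
    intro T
    induction T using Finset.induction_on with
    | empty =>
      have : (fun u : Fin n => if u ∈ (∅ : Finset (Fin n)) then f u else 1) = 1 := by
        funext u; simp
      rw [this]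
      exact one_mem _
    | insert w T hw ih =>
      have h1 : pw (f w) {w} ∈ graphPower (Aff F) Γ := by
        have h2 := (mem_commutator_iff hF _).1 (hf w (Set.mem_univ w))
        rw [eq_tr_of_right h2]
        exact g4 w _
      have : (fun u : Fin n => if u ∈ insert w T then f u else 1) =
          pw (f w) {w} * (fun u => if u ∈ T then f u else 1) := by
        funext u
        simp only [Pi.mul_apply, pw, Finset.mem_insert, Set.mem_singleton_iff]
        by_cases huw : u = w
        · subst huw
          simp [hw]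
        · simp [huw]
      rw [this]
      exact mul_mem h1 ih
  have := hprod Finset.univ
  simpa using this

/-! ### The subgroup `Comm_b` -/

/-- The reduction of the RA matrix. -/
noncomputable def RAF (F : Type) [Field F] (Γ : SimpleGraph (Fin n)) :
    Matrix (Fin n × Fin n) (Fin n) F := (RA Γ).map (Int.castRingHom F)

/-- The row space. -/
noncomputable def rowSpace (F : Type) [Field F] (Γ : SimpleGraph (Fin n)) :
    Submodule F (Fin n → F) := Submodule.span F (Set.range (RAF F Γ).row)

/-- The inclusion of `F^V` into `G^V`. -/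
def ι (F : Type) [Field F] (n : ℕ) : Multiplicative (Fin n → F) →* (Fin n → Aff F) where
  toFun f := fun u => tr F (f.toAdd u)
  map_one' := by funext u; exact tr_zero
  map_mul' f g := by funext u; exact tr_add _ _

theorem ι_injective : Function.Injective (ι F n) := by
  intro f g h
  apply Multiplicative.toAdd.injective
  funext u
  exact tr_injective (congrFun h u)

theorem ι_row (Γ : SimpleGraph (Fin n)) (c : F) (v w : Fin n) :
    ι F n (Multiplicative.ofAdd (c • (RAF F Γ).row (v, w))) = pw (tr F c) (N Γ v ∩ N Γ w) := by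
  classical
  funext u
  change tr F (c * ((RA Γ (v, w) u : ℤ) : F)) = pw (tr F c) (N Γ v ∩ N Γ w) u
  simp only [RA, Matrix.of_apply, pw]
  split_ifs
  · simp
  · simp [tr_zero]

theorem mem_commB_iff (hF : ∃ b : F, b ≠ 0 ∧ b ≠ 1) (Γ : SimpleGraph (Fin n))
    (f : Multiplicative (Fin n → F)) :
    f.toAdd ∈ rowSpace F Γ ↔ ι F n f ∈ commB (Aff F) Γ := by
  constructor
  · intro hf
    have key : ∀ x ∈ rowSpace F Γ, ∀ c : F,
        ι F n (Multiplicative.ofAdd (c • x)) ∈ commB (Aff F) Γ := by
      intro x hx
      induction hx using Submodule.span_induction with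
      | mem x h =>
        obtain ⟨⟨v, w⟩, rfl⟩ := h
        intro c
        rw [ι_row]
        obtain ⟨g, h, hgh, -⟩ := exists_unit hF c
        rw [← hgh, ← comm_pw]
        exact Subgroup.subset_closure ⟨g, h, v, w, rfl⟩
      | zero =>
        intro c
        rw [smul_zero, ofAdd_zero, map_one]
        exact one_mem _
      | add x y _ _ hx hy =>
        intro c
        rw [smul_add, ofAdd_add, map_mul]
        exact mul_mem (hx c) (hy c)
      | smul a x _ hx =>
        intro c
        rw [smul_smul]
        exact hx _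
    have := key _ hf 1
    rwa [one_smul, ofAdd_toAdd] at this
  · intro hf
    have hle : commB (Aff F) Γ ≤ (AddSubgroup.toSubgroup (rowSpace F Γ).toAddSubgroup).map
        (ι F n) := by
      rw [commB, Subgroup.closure_le]
      rintro _ ⟨g, h, v, w, rfl⟩
      rw [comm_pw, eq_tr_of_right (commutator_right g h), ← ι_row]
      refine ⟨_, ?_, rfl⟩
      have h1 : Multiplicative.toAdd ⁅g, h⁆.left • (RAF F Γ).row (v, w) ∈ rowSpace F Γ :=
        Submodule.smul_mem _ _ (Submodule.subset_span ⟨(v, w), rfl⟩)
      exact h1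
    obtain ⟨f', hf', hff'⟩ := hle hf
    have := ι_injective hff'
    subst this
    exact hf'

theorem commB_right (Γ : SimpleGraph (Fin n)) (f : Fin n → Aff F) (hf : f ∈ commB (Aff F) Γ)
    (u : Fin n) : (f u).right = 1 := by
  have hle : commB (Aff F) Γ ≤
      ((SemidirectProduct.rightHom : Aff F →* Fˣ).comp
        (Pi.evalMonoidHom (fun _ : Fin n => Aff F) u)).ker := by
    rw [commB, Subgroup.closure_le]
    rintro _ ⟨g, h, v, w, rfl⟩
    rw [comm_pw]
    change (pw ⁅g, h⁆ (N Γ v ∩ N Γ w) u).right = 1
    simp only [pw]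
    split_ifs
    · exact commutator_right g h
    · rfl
  exact hle hf

/-- `Comm_b` is isomorphic to the row space. -/
noncomputable def equivRowSpace (hF : ∃ b : F, b ≠ 0 ∧ b ≠ 1) (Γ : SimpleGraph (Fin n)) :
    Multiplicative (rowSpace F Γ) ≃* commB (Aff F) Γ :=
  MulEquiv.ofBijective
    ({ toFun := fun x => ⟨ι F n (Multiplicative.ofAdd (x.toAdd : Fin n → F)),
          (mem_commB_iff hF Γ _).1 x.toAdd.2⟩
       map_one' := Subtype.ext (map_one _)
       map_mul' := fun x y => Subtype.ext (map_mul (ι F n) _ _) } :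
      Multiplicative (rowSpace F Γ) →* commB (Aff F) Γ)
    ⟨fun x y h => Multiplicative.toAdd.injective (Subtype.ext
        (Multiplicative.ofAdd.injective (ι_injective (congrArg Subtype.val h)))),
      fun f => by
        have h1 : ι F n (Multiplicative.ofAdd fun u => Multiplicative.toAdd (f.1 u).left) = f.1 := by
          funext u
          exact (eq_tr_of_right (commB_right Γ f.1 f.2 u)).symm
        refine ⟨Multiplicative.ofAdd ⟨fun u => Multiplicative.toAdd (f.1 u).left, ?_⟩, ?_⟩
        · rw [← toAdd_ofAdd (fun u => Multiplicative.toAdd (f.1 u).left), mem_commB_iff hF, h1]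
          exact f.2
        · exact Subtype.ext h1⟩

/-- The rank computation. -/
theorem finrank_rowSpace (p : ℕ) [Fact p.Prime] [CharP F p] (Γ : SimpleGraph (Fin n))
    (d : Fin n → ℤ) (hd : IsElementaryDivisors (RA Γ) d)
    (hp : ∀ i, d i ≠ 1 → (p : ℤ) ∣ d i) :
    Module.finrank F (rowSpace F Γ) = n - (Finset.univ.filter fun i => d i ≠ 1).card := by
  classical
  obtain ⟨-, -, P, Q, hP, hQ, hPQ⟩ := hd
  let c := Int.castRingHom F
  have h1 : (P.map c) * (RAF F Γ) * (Q.map c) =
      Matrix.of fun r j => if r = (j, j) then (d j : F) else 0 := by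
    unfold RAF
    rw [← Matrix.map_mul, ← Matrix.map_mul, hPQ]
    ext r j
    simp only [Matrix.map_apply, Matrix.of_apply]
    split_ifs <;> simp
  have hPu : IsUnit (P.map c).det := by
    have : IsUnit (P.map c) := by
      have := hP.map (c.mapMatrix (m := Fin n × Fin n))
      exact this
    exact (Matrix.isUnit_iff_isUnit_det _).1 this
  have hQu : IsUnit (Q.map c).det := by
    have : IsUnit (Q.map c) := by
      have := hQ.map (c.mapMatrix (m := Fin n))
      exact this
    exact (Matrix.isUnit_iff_isUnit_det _).1 this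
  have h2 : (RAF F Γ).rank = (Matrix.of fun (r : Fin n × Fin n) (j : Fin n) =>
      if r = (j, j) then (d j : F) else 0).rank := by
    rw [← h1, Matrix.rank_mul_eq_left_of_isUnit_det _ _ hQu,
      Matrix.rank_mul_eq_right_of_isUnit_det _ _ hPu]
  have h3 : (Matrix.of fun (r : Fin n × Fin n) (j : Fin n) =>
      if r = (j, j) then (d j : F) else 0).rank = (Matrix.diagonal fun j => (d j : F)).rank := by
    let E : Matrix (Fin n × Fin n) (Fin n) F := Matrix.of fun r j => if r = (j, j) then 1 else 0
    have e1 : (Matrix.of fun (r : Fin n × Fin n) (j : Fin n) =>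
        if r = (j, j) then (d j : F) else 0) = E * Matrix.diagonal fun j => (d j : F) := by
      ext r j
      rw [Matrix.mul_diagonal]
      simp only [Matrix.of_apply, E]
      split_ifs <;> simp
    have e2 : (Matrix.diagonal fun j => (d j : F)) = E.transpose * (E * Matrix.diagonal fun j =>
        (d j : F)) := by
      rw [← Matrix.mul_assoc]
      have e3 : E.transpose * E = 1 := by
        ext i j
        rw [Matrix.mul_apply]
        simp only [Matrix.transpose_apply, E, Matrix.of_apply]
        rw [Finset.sum_eq_single (i, i)]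
        · by_cases hij : i = j
          · subst hij
            simp
          · rw [Matrix.one_apply_ne hij]
            simp [hij]
        · intro b _ hb
          simp [hb]
        · intro h
          exact absurd (Finset.mem_univ _) h
      rw [e3, Matrix.one_mul]
    apply le_antisymm
    · rw [e1]
      exact Matrix.rank_mul_le_right _ _
    · conv_lhs => rw [e2]
      rw [← e1]
      exact Matrix.rank_mul_le_right _ _
  have h4 : Module.finrank F (rowSpace F Γ) = (RAF F Γ).rank := by
    rw [Matrix.rank_eq_finrank_span_row]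
    rfl
  rw [h4, h2, h3, Matrix.rank_diagonal]
  have h5 : ∀ j, (d j : F) ≠ 0 ↔ ¬ (d j ≠ 1) := by
    intro j
    rw [not_not]
    constructor
    · intro h
      by_contra hne
      exact h ((CharP.intCast_eq_zero_iff F p (d j)).2 (hp j hne))
    · intro h
      rw [h]
      simp
  have h6 : Fintype.card {j // (d j : F) ≠ 0} = (Finset.univ.filter fun j => ¬ (d j ≠ 1)).card := by
    rw [Fintype.card_subtype]
    congr 1
    ext j
    simp only [Finset.mem_filter, Finset.mem_univ, true_and]
    exact h5 j
  rw [h6]
  have h7 := Finset.card_filter_add_card_filter_not (s := (Finset.univ : Finset (Fin n)))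
    (fun j => d j ≠ 1)
  rw [Finset.card_univ, Fintype.card_fin] at h7
  omega

end

/-- The main theorem. -/
theorem result : ∀ (n k : ℕ) (Γ : SimpleGraph (Fin n)) (d : Fin n → ℤ),
    IsElementaryDivisors (RA Γ) d → k = (Finset.univ.filter fun i => d i ≠ 1).card →
    ((∃ (G : Type) (_ : Group G), Finite G ∧ (∃ x y : G, x * y ≠ y * x) ∧
        Nonempty (commB G Γ ≃* (Fin (n - k) → commutator G)) ∧ IsRA G Γ) ↔
      ∀ u v : Fin n, N Γ u = N Γ v → u = v) := by
  intro n k Γ d hd hk
  constructor
  · rintro ⟨G, hG, -, hne, -, hRA⟩ u v huv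
    by_contra hne'
    exact not_RA_of_twins Γ u v hne' huv G hne hRA
  · intro hΓ
    -- choose the prime
    obtain ⟨p, hp, hpd⟩ : ∃ p : ℕ, p.Prime ∧ ∀ i, d i ≠ 1 → (p : ℤ) ∣ d i := by
      by_cases hex : ∃ i, d i ≠ 1
      · classical
        obtain ⟨hpos, hdvd, -⟩ := hd
        have hne : (Finset.univ.filter fun i => d i ≠ 1).Nonempty := by
          obtain ⟨i, hi⟩ := hex
          exact ⟨i, by simpa using hi⟩
        set i₀ := (Finset.univ.filter fun i => d i ≠ 1).min' hne with hi₀
        have hmem := Finset.min'_mem _ hne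
        rw [← hi₀] at hmem
        have h1 : d i₀ ≠ 1 := by simpa using hmem
        have h2 : (d i₀).natAbs ≠ 1 := by
          intro h
          have := hpos i₀
          omega
        obtain ⟨p, hp, hpd⟩ := Nat.exists_prime_and_dvd h2
        refine ⟨p, hp, ?_⟩
        intro i hi
        have hle : i₀ ≤ i := by
          rw [hi₀]
          exact Finset.min'_le _ _ (by simpa using hi)
        exact (Int.natCast_dvd.2 hpd).trans (hdvd i₀ i hle)
      · push Not at hex
        exact ⟨2, Nat.prime_two, fun i hi => absurd (hex i) hi⟩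
    have : Fact p.Prime := ⟨hp⟩
    let F : Type := GaloisField p 2
    have hcard : Nat.card F = p ^ 2 := GaloisField.card p 2 (by norm_num)
    have hF : ∃ b : F, b ≠ 0 ∧ b ≠ 1 := by
      by_contra hcon
      push Not at hcon
      have hall : ∀ b : F, b ∈ ({0, 1} : Set F) := by
        intro b
        by_cases hb : b = 0
        · exact Or.inl hb
        · exact Or.inr (hcon b hb)
      have h1 : (Set.univ : Set F) ⊆ {0, 1} := fun b _ => hall b
      have h2 : Nat.card F ≤ 2 := by
        rw [← Set.ncard_univ]
        refine (Set.ncard_le_ncard h1 (Set.toFinite _)).trans ?_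
        refine (Set.ncard_insert_le _ _).trans ?_
        rw [Set.ncard_singleton]
      have h3 : 2 ^ 2 ≤ p ^ 2 := Nat.pow_le_pow_left hp.two_le 2
      omega
    have : Finite F := by
      apply Nat.finite_of_card_ne_zero
      rw [hcard]
      exact pow_ne_zero _ hp.ne_zero
    refine ⟨Aff F, inferInstance, ?_, ?_, ?_, RA_of_no_twins hF Γ hΓ⟩
    · exact Finite.of_equiv _ (SemidirectProduct.equivProd (φ := φ F)).symm
    · obtain ⟨x, y, hxy, -⟩ := exists_unit hF 1
      refine ⟨x, y, fun h => ?_⟩
      rw [← commutatorElement_eq_one_iff_mul_comm, hxy, ← tr_zero] at h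
      exact one_ne_zero (tr_injective h)
    · have hrank := finrank_rowSpace (F := F) p Γ d hd hpd
      rw [← hk] at hrank
      have e1 : rowSpace F Γ ≃ₗ[F] (Fin (n - k) → F) :=
        LinearEquiv.ofFinrankEq _ _ (by rw [hrank, Module.finrank_fin_fun])
      have e2 : Multiplicative (rowSpace F Γ) ≃* Multiplicative (Fin (n - k) → F) :=
        AddEquiv.toMultiplicative e1.toAddEquiv
      have e3 : Multiplicative (Fin (n - k) → F) ≃* (Fin (n - k) → Multiplicative F) :=
        { toFun := fun f i => Multiplicative.ofAdd (f.toAdd i)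
          invFun := fun f => Multiplicative.ofAdd fun i => (f i).toAdd
          left_inv := fun f => rfl
          right_inv := fun f => rfl
          map_mul' := fun f g => rfl }
      have e4 : (Fin (n - k) → Multiplicative F) ≃* (Fin (n - k) → commutator (Aff F)) :=
        MulEquiv.piCongrRight fun _ => equivCommutator hF
      exact ⟨(equivRowSpace hF Γ).symm.trans (e2.trans (e3.trans e4))⟩

end Pool.Agent.Results.MP_8f3806_al.MaximalGap
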